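import Pool.Agent.Helper62K1.IsoApi

/-!
# Smooth folding maps
-/

set_option autoImplicit false

namespace Pool.Agent.Helper55K1.SF

open MeasureTheory Set Filter Topology
open Pool.Agent.H62
open Pool.Agent.H48R3.CP (D U)
open scoped ContDiff

/-- the smooth folding map of the line -/
noncomputable def ps (s t : ℝ) : ℝ := (1 / Real.pi) * Real.arccos ((1 - s) * Real.cos (Real.pi * t))

/-- its derivative -/
noncomputable def psd (s t : ℝ) : ℝ :=
  (1 - s) * Real.sin (Real.pi * t) / √(1 - ((1 - s) * Real.cos (Real.pi * t)) ^ 2)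

theorem abs_arg {s : ℝ} (h0 : 0 < s) (h1 : s < 1) (t : ℝ) :
    -1 < (1 - s) * Real.cos (Real.pi * t) ∧ (1 - s) * Real.cos (Real.pi * t) < 1 := by
  have h2 := Real.neg_one_le_cos (Real.pi * t)
  have h3 := Real.cos_le_one (Real.pi * t)
  constructor <;> nlinarith

theorem ps_even (s t : ℝ) : ps s (-t) = ps s t := by
  unfold ps
  rw [mul_neg, Real.cos_neg]

theorem ps_periodic (s t : ℝ) : ps s (t + 2) = ps s t := by
  unfold ps
  rw [mul_add, mul_comm Real.pi 2, Real.cos_add_two_pi]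

theorem ps_mem (s t : ℝ) : 0 ≤ ps s t ∧ ps s t ≤ 1 := by
  have hp := Real.pi_pos
  unfold ps
  constructor
  · exact mul_nonneg (by positivity) (Real.arccos_nonneg _)
  · have := Real.arccos_le_pi ((1 - s) * Real.cos (Real.pi * t))
    rw [one_div, inv_mul_le_iff₀ hp, mul_one]
    exact this

theorem contDiff_ps {s : ℝ} (h0 : 0 < s) (h1 : s < 1) : ContDiff ℝ ∞ (ps s) := by
  rw [contDiff_iff_contDiffAt]
  intro t
  obtain ⟨h2, h3⟩ := abs_arg h0 h1 t
  have h4 : ContDiffAt ℝ ∞ Real.arccos ((1 - s) * Real.cos (Real.pi * t)) :=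
    Real.contDiffAt_arccos h2.ne' h3.ne
  have h5 : ContDiffAt ℝ ∞ (fun t : ℝ => (1 - s) * Real.cos (Real.pi * t)) t := by
    fun_prop
  have h6 : ContDiffAt ℝ ∞ (fun t : ℝ => Real.arccos ((1 - s) * Real.cos (Real.pi * t))) t :=
    ContDiffAt.comp (g := Real.arccos) t h4 h5
  exact contDiffAt_const.mul h6

theorem hasDerivAt_ps {s : ℝ} (h0 : 0 < s) (h1 : s < 1) (t : ℝ) :
    HasDerivAt (ps s) (psd s t) t := by
  obtain ⟨h2, h3⟩ := abs_arg h0 h1 t
  have h4 := Real.hasDerivAt_arccos h2.ne' h3.ne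
  have h5 : HasDerivAt (fun t : ℝ => (1 - s) * Real.cos (Real.pi * t))
      ((1 - s) * (-Real.sin (Real.pi * t) * (Real.pi * 1))) t :=
    ((((hasDerivAt_id t).const_mul Real.pi).cos).const_mul (1 - s))
  have h6 := (HasDerivAt.comp (h₂ := Real.arccos) t h4 h5).const_mul (1 / Real.pi)
  refine h6.congr_deriv ?_
  unfold psd
  have hp := Real.pi_pos.ne'
  field_simp

theorem psd_sq_le {s : ℝ} (h0 : 0 < s) (h1 : s < 1) (t : ℝ) : psd s t ^ 2 ≤ 1 := by
  obtain ⟨h2, h3⟩ := abs_arg h0 h1 t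
  unfold psd
  have h4 : 0 < 1 - ((1 - s) * Real.cos (Real.pi * t)) ^ 2 := by nlinarith
  rw [div_pow, Real.sq_sqrt h4.le, div_le_one h4]
  have h5 := Real.sin_sq_add_cos_sq (Real.pi * t)
  have h6 : (1 - s) ^ 2 ≤ 1 := by nlinarith
  nlinarith

theorem ps_zero {t : ℝ} (h1 : -1 ≤ t) (h2 : t ≤ 1) : ps 0 t = |t| := by
  unfold ps
  have hp := Real.pi_pos
  rw [sub_zero, one_mul, ← Real.cos_abs, abs_mul, abs_of_pos hp, Real.arccos_cos]
  · field_simp
  · positivity
  · have : |t| ≤ 1 := abs_le.2 ⟨h1, h2⟩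
    nlinarith

theorem continuous_ps_s (t : ℝ) : Continuous fun s => ps s t := by
  unfold ps
  exact continuous_const.mul (Real.continuous_arccos.comp (by fun_prop))

variable {d : ℕ}

/-- the smooth folding map of space -/
noncomputable def Psi (d : ℕ) (s : ℝ) (x : Fin d → ℝ) : Fin d → ℝ := fun i => ps s (x i)

theorem contDiff_Psi {s : ℝ} (h0 : 0 < s) (h1 : s < 1) : ContDiff ℝ ∞ (Psi d s) := by
  rw [contDiff_pi]
  intro i
  exact (contDiff_ps h0 h1).comp (contDiff_apply ℝ ℝ i)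

theorem Psi_mem (s : ℝ) (x : Fin d → ℝ) : Psi d s x ∈ Icc (0 : Fin d → ℝ) 1 :=
  ⟨fun i => (ps_mem s (x i)).1, fun i => (ps_mem s (x i)).2⟩

theorem Psi_rf (s : ℝ) (i : Fin d) (x : Fin d → ℝ) : Psi d s (rf i x) = Psi d s x := by
  funext j
  show ps s (Function.update x i (-(x i)) j) = ps s (x j)
  by_cases h : j = i
  · subst h
    rw [Function.update_self, ps_even]
  · rw [Function.update_of_ne h]

theorem Psi_periodic (s : ℝ) (i : Fin d) (x : Fin d → ℝ) :
    Psi d s (x + Pi.single i 2) = Psi d s x := by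
  funext j
  show ps s (x j + (Pi.single i 2 : Fin d → ℝ) j) = ps s (x j)
  by_cases h : j = i
  · subst h
    rw [Pi.single_eq_same, ps_periodic]
  · rw [Pi.single_eq_of_ne h, add_zero]

theorem D_comp {s : ℝ} (h0 : 0 < s) (h1 : s < 1) {f : (Fin d → ℝ) → ℝ} (hf : ContDiff ℝ 1 f)
    (i : Fin d) (x : Fin d → ℝ) :
    D (fun y => f (Psi d s y)) i x = psd s (x i) * D f i (Psi d s x) := by
  have h2 : HasFDerivAt (Psi d s)
      (ContinuousLinearMap.pi fun j => psd s (x j) •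
        ContinuousLinearMap.proj (R := ℝ) (φ := fun _ : Fin d => ℝ) j) x := by
    rw [hasFDerivAt_pi]
    intro j
    have h3 : HasFDerivAt (fun y : Fin d → ℝ => y j)
        (ContinuousLinearMap.proj (R := ℝ) (φ := fun _ : Fin d => ℝ) j) x :=
      (ContinuousLinearMap.proj (R := ℝ) (φ := fun _ : Fin d => ℝ) j).hasFDerivAt
    exact (hasDerivAt_ps h0 h1 (x j)).comp_hasFDerivAt x h3
  have h4 : HasFDerivAt f (fderiv ℝ f (Psi d s x)) (Psi d s x) :=
    (hf.differentiable (by norm_num) _).hasFDerivAt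
  have h5 := h4.comp x h2
  unfold D
  have h6 : fderiv ℝ (fun y => f (Psi d s y)) x = _ := h5.fderiv
  rw [h6, ContinuousLinearMap.comp_apply]
  have h7 : (ContinuousLinearMap.pi fun j => psd s (x j) •
      ContinuousLinearMap.proj (R := ℝ) (φ := fun _ : Fin d => ℝ) j)
        (Pi.single i 1 : Fin d → ℝ) = psd s (x i) • (Pi.single i 1 : Fin d → ℝ) := by
    funext j
    by_cases h : j = i
    · subst h
      simp
    · simp [Pi.single_eq_of_ne h]
  rw [h7, map_smul, smul_eq_mul]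

theorem wf_comp_le {s : ℝ} (h0 : 0 < s) (h1 : s < 1) {f : (Fin d → ℝ) → ℝ}
    (hf : ContDiff ℝ 1 f) (x : Fin d → ℝ) :
    wf (fun y => f (Psi d s y)) x ≤ wf f (Psi d s x) := by
  unfold wf
  apply Real.sqrt_le_sqrt
  apply add_le_add le_rfl
  apply Finset.sum_le_sum
  intro i _
  rw [D_comp h0 h1 hf, mul_pow]
  have h2 := psd_sq_le h0 h1 (x i)
  nlinarith [sq_nonneg (D f i (Psi d s x))]

end Pool.Agent.Helper55K1.SF
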