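import Pool.Agent.Helper55K1.SF.Meas

/-!
# From sets in the cube to smooth even periodic functions
-/

set_option autoImplicit false

namespace Pool.Agent.Helper55K1.SF

open MeasureTheory Set Filter Topology
open Pool.Agent.H62
open Pool.Agent.H48R3.CP
open scoped ContDiff

variable {d : ℕ}

theorem eta_smooth (δ : ℝ) (hδ : 0 < δ) : ContDiff ℝ ∞ (eta d δ hδ) := by
  exact_mod_cast (bump d δ hδ).contDiff_normed (n := ⊤) (μ := volume)

theorem conv_smooth (u η : (Fin d → ℝ) → ℝ) (hu : LocallyIntegrable u) (hη : ContDiff ℝ ∞ η)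
    (hc : HasCompactSupport η) : ContDiff ℝ ∞ (conv u η) := by
  rw [conv_eq]
  exact_mod_cast hc.contDiff_convolution_right (n := ⊤) (ContinuousLinearMap.mul ℝ ℝ) hu hη

theorem fd_smooth (E : Set (Fin d → ℝ)) (hE : MeasurableSet E) (hEU : E ⊆ U d) (δ : ℝ)
    (hδ : 0 < δ) : ContDiff ℝ ∞ (fd E δ hδ) := by
  have hgd : ContDiff ℝ ∞ (conv (E.indicator (fun _ => (1:ℝ))) (eta d δ hδ)) :=
    conv_smooth _ _ (int_ind E hE hEU).locallyIntegrable (eta_smooth δ hδ) (eta_supp δ hδ)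
  have hTd : ContDiff ℝ ∞ (T d δ) := by
    unfold T
    fun_prop
  unfold fd
  exact contDiff_const.add (contDiff_const.mul (hgd.comp hTd))

theorem fd_mem (E : Set (Fin d → ℝ)) (hE : MeasurableSet E) (hEU : E ⊆ U d) (δ : ℝ)
    (hδ : 0 < δ) (hδ2 : δ < 1 / 8) (x : Fin d → ℝ) : 0 < fd E δ hδ x ∧ fd E δ hδ x < 1 := by
  have hb := g_bounds E hE hEU δ hδ (T d δ x)
  have h3 := mul_nonneg (by linarith : 0 ≤ 1 - 2 * δ) hb.1
  have h4 := mul_le_mul_of_nonneg_left hb.2 (by linarith : 0 ≤ 1 - 2 * δ)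
  unfold fd
  constructor <;> linarith

theorem grad_eq (E : Set (Fin d → ℝ)) (hE : MeasurableSet E) (hEU : E ⊆ U d) (δ : ℝ)
    (hδ : 0 < δ) (hδ2 : δ < 1 / 8) :
    ∫ x in Icc (0 : Fin d → ℝ) 1, √(∑ i, D (fd E δ hδ) i x ^ 2) =
      (1 - 2 * δ) * (1 - 4 * δ) * (((1 - 4 * δ) ^ d)⁻¹ *
        ∫ y in Icc (fun _ : Fin d => 2 * δ) (fun _ => 1 - 2 * δ),
          √(∑ i, D (conv (E.indicator (fun _ => (1:ℝ))) (eta d δ hδ)) i y ^ 2)) := by
  have hl : 0 < 1 - 4 * δ := by linarith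
  set g := conv (E.indicator (fun _ => (1:ℝ))) (eta d δ hδ) with hg
  have hgd : ContDiff ℝ 1 g := contDiff_conv _ _ (int_ind E hE hEU).locallyIntegrable
    (eta_contDiff δ hδ) (eta_supp δ hδ)
  set f := fd E δ hδ with hf
  have hD : ∀ i x, D f i x = (1 - 2 * δ) * ((1 - 4 * δ) * D g i (T d δ x)) := by
    intro i x
    have h1 : HasFDerivAt (T d δ) ((1 - 4 * δ) • ContinuousLinearMap.id ℝ (Fin d → ℝ)) x := by
      exact ((hasFDerivAt_id x).const_smul (1 - 4 * δ)).const_add _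
    have h2 : HasFDerivAt g (fderiv ℝ g (T d δ x)) (T d δ x) :=
      (hgd.differentiable (by norm_num) _).hasFDerivAt
    have h3 := ((h2.comp x h1).const_mul (1 - 2 * δ)).const_add δ
    have h4 : HasFDerivAt f _ x := h3
    unfold D
    rw [h4.fderiv]
    simp
  rw [← change_var (fun y => √(∑ i, D g i y ^ 2)) δ hδ hδ2, ← integral_const_mul]
  congr 1
  funext x
  have : ∑ i, D f i x ^ 2 = ((1 - 2 * δ) * (1 - 4 * δ)) ^ 2 * ∑ i, D g i (T d δ x) ^ 2 := by
    rw [Finset.mul_sum]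
    congr 1
    funext i
    rw [hD]; ring
  have hp : 0 ≤ (1 - 2 * δ) * (1 - 4 * δ) := mul_nonneg (by linarith) (by linarith)
  rw [this, Real.sqrt_mul (by positivity), Real.sqrt_sq hp]

theorem dv_eq {ξ : (Fin d → ℝ) → (Fin d → ℝ)} (hξ : ContDiff ℝ 1 ξ) (x : Fin d → ℝ) :
    dv ξ x = ∑ i, fderiv ℝ (fun y => ξ y i) x (Pi.single i (1 : ℝ) : Fin d → ℝ) := by
  unfold dv
  apply Finset.sum_congr rfl
  intro i _
  have h1 : HasFDerivAt ξ (fderiv ℝ ξ x) x := (hξ.differentiable (by norm_num) x).hasFDerivAt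
  have h2 := (hasFDerivAt_pi'.1 h1 i).fderiv
  rw [h2]
  rfl

theorem PB_nonneg {E : Set (Fin d → ℝ)} {C : ℝ} (h : PB E C) : 0 ≤ C := by
  have h1 := h 0 ⟨contDiff_const, HasCompactSupport.zero, by simp [tsupport], fun x => by simp⟩
  have h2 : ∀ x, dv (0 : (Fin d → ℝ) → (Fin d → ℝ)) x = 0 := by
    intro x
    unfold dv
    simp
  simpa [h2] using h1

theorem exists_smooth (v C : ℝ) (hv : 0 < v) (h : Ach d v C) (ε : ℝ)
    (hε : 0 < ε) : ∃ f : (Fin d → ℝ) → ℝ, ContDiff ℝ ∞ f ∧ (∀ x, 0 < f x ∧ f x < 1) ∧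
      ∫ x in Icc (0 : Fin d → ℝ) 1, √(∑ i, D f i x ^ 2) ≤ C + ε ∧
      |(∫ x in Icc (0 : Fin d → ℝ) 1, f x) - v| ≤ ε ∧
      ∫ x in Icc (0 : Fin d → ℝ) 1, Iso (f x) ≤ ε := by
  obtain ⟨E, hE, hEU, hvol, hPB⟩ := h
  have hC := PB_nonneg hPB
  set u : (Fin d → ℝ) → ℝ := E.indicator (fun _ => (1:ℝ)) with hu
  set μ := (volume : Measure (Fin d → ℝ)).restrict (Icc (0 : Fin d → ℝ) 1) with hμ
  have : IsFiniteMeasure μ := ⟨by rw [hμ, Measure.restrict_apply_univ, vol_Icc]; exact ENNReal.one_lt_top⟩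
  have hlim := ae_lim E hE hEU
  have hsm : ∀ n, ContDiff ℝ ∞ (fd E (dl n) (dl_pos n)) := fun n => fd_smooth E hE hEU _ _
  have hfc : ∀ n, Continuous (fd E (dl n) (dl_pos n)) := fun n => (hsm n).continuous
  have hf01 : ∀ n x, 0 < fd E (dl n) (dl_pos n) x ∧ fd E (dl n) (dl_pos n) x < 1 :=
    fun n x => fd_mem E hE hEU _ _ (dl_lt n) x
  have hlim1 : Tendsto (fun n => ∫ x, fd E (dl n) (dl_pos n) x ∂μ) atTop (𝓝 (∫ x, u x ∂μ)) := by
    apply tendsto_integral_of_dominated_convergence (fun _ => (1:ℝ))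
    · exact fun n => (hfc n).aestronglyMeasurable
    · exact integrable_const _
    · intro n
      refine Eventually.of_forall fun x => ?_
      rw [Real.norm_eq_abs, abs_of_nonneg (hf01 n x).1.le]
      exact (hf01 n x).2.le
    · exact hlim
  have hlim2 : Tendsto (fun n => ∫ x, Iso (fd E (dl n) (dl_pos n) x) ∂μ) atTop
      (𝓝 (∫ x, Iso (u x) ∂μ)) := by
    apply tendsto_integral_of_dominated_convergence (fun _ => (1:ℝ))
    · exact fun n => (continuous_Iso.comp (hfc n)).aestronglyMeasurable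
    · exact integrable_const _
    · intro n
      refine Eventually.of_forall fun x => ?_
      rw [Real.norm_eq_abs, abs_of_nonneg (Iso_nonneg _)]
      linarith [Iso_le_half (fd E (dl n) (dl_pos n) x)]
    · filter_upwards [hlim] with x hx
      exact (continuous_Iso.tendsto _).comp hx
  have hu1 : ∫ x, u x ∂μ = v := by
    rw [hu, integral_indicator hE, hμ, Measure.restrict_restrict hE,
      inter_eq_self_of_subset_left (hEU.trans U_sub), setIntegral_const, Measure.real, hvol,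
      ENNReal.toReal_ofReal hv.le]
    simp
  have hu2 : ∫ x, Iso (u x) ∂μ = 0 := by
    have : ∀ x, Iso (u x) = 0 := by
      intro x
      by_cases hx : x ∈ E
      · simp only [hu, indicator_of_mem hx]
        exact Iso_one
      · simp only [hu, indicator_of_notMem hx]
        exact Iso_zero
    simp [this]
  rw [hu1] at hlim1
  rw [hu2] at hlim2
  have hlim3 : Tendsto (fun n => ((1 - 4 * dl n) ^ d)⁻¹ * C) atTop
      (𝓝 (((1 - 4 * 0) ^ d)⁻¹ * C)) := by
    apply Tendsto.mul _ tendsto_const_nhds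
    apply Tendsto.inv₀
    · exact (tendsto_const_nhds.sub (dl_tendsto.const_mul 4)).pow d
    · simp
  simp only [mul_zero, sub_zero, one_pow, inv_one, one_mul] at hlim3
  have ev1 : ∀ᶠ n in atTop, ((1 - 4 * dl n) ^ d)⁻¹ * C < C + ε :=
    hlim3.eventually (gt_mem_nhds (by linarith))
  have ev2 : ∀ᶠ n in atTop, |(∫ x, fd E (dl n) (dl_pos n) x ∂μ) - v| < ε := by
    have := (tendsto_iff_dist_tendsto_zero.1 hlim1).eventually (gt_mem_nhds hε)
    filter_upwards [this] with n hn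
    rwa [Real.dist_eq] at hn
  have ev3 : ∀ᶠ n in atTop, ∫ x, Iso (fd E (dl n) (dl_pos n) x) ∂μ < ε :=
    hlim2.eventually (gt_mem_nhds hε)
  obtain ⟨n, hn1, hn2, hn3⟩ := (ev1.and (ev2.and ev3)).exists
  refine ⟨fd E (dl n) (dl_pos n), hsm n, hf01 n, ?_, hn2.le, hn3.le⟩
  obtain ⟨φ, h1, h2, h3, h4, h5⟩ := testfield E hE hEU (dl n) (dl_pos n) (dl_lt n)
  have h6 : ∫ x in E, dv φ x ≤ C := hPB φ ⟨h1, h2, h3, h4⟩
  have h7 : ∫ x in E, dv φ x =
      ∫ x in E, (∑ i, fderiv ℝ (fun y => φ y i) x (Pi.single i (1 : ℝ) : Fin d → ℝ)) := by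
    congr 1
    funext x
    exact dv_eq h1 x
  rw [h7, h5] at h6
  rw [grad_eq E hE hEU (dl n) (dl_pos n) (dl_lt n)]
  set I := ∫ y in Icc (fun _ : Fin d => 2 * dl n) (fun _ => 1 - 2 * dl n),
    √(∑ i, D (conv (E.indicator (fun _ => (1:ℝ))) (eta d (dl n) (dl_pos n))) i y ^ 2) with hI
  have hI0 : 0 ≤ I := integral_nonneg fun x => Real.sqrt_nonneg _
  have hδ := dl_pos n
  have hδ2 := dl_lt n
  have hl : 0 < 1 - 4 * dl n := by linarith
  have hpow : 0 < ((1 - 4 * dl n) ^ d)⁻¹ := by positivity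
  have h8 : (1 - 2 * dl n) * (1 - 4 * dl n) ≤ 1 := by nlinarith
  have h9 : 0 ≤ ((1 - 4 * dl n) ^ d)⁻¹ * I := mul_nonneg hpow.le hI0
  have h10 : ((1 - 4 * dl n) ^ d)⁻¹ * I ≤ ((1 - 4 * dl n) ^ d)⁻¹ * C :=
    mul_le_mul_of_nonneg_left h6 hpow.le
  nlinarith

/-- **From sets to functions.** -/
theorem StoF {d : ℕ} (v C : ℝ) (hv : 0 < v) (_hv1 : v < 1) (h : Ach d v C) (ε : ℝ)
    (hε : 0 < ε) : ∃ W : (Fin d → ℝ) → ℝ, ContDiff ℝ ∞ W ∧ Ev W ∧ Pe W ∧
      (∀ x, 0 < W x ∧ W x < 1) ∧ Fn W ≤ C + ε ∧ |av W - v| ≤ ε ∧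
      av (fun x => Iso (W x)) ≤ ε := by
  obtain ⟨f, hf, h01, hgrad, hav, hiso⟩ := exists_smooth v C hv h (ε / 8) (by positivity)
  have hf1 : ContDiff ℝ 1 f := hf.of_le (by norm_num)
  have hfc := hf.continuous
  have hDc : ∀ i, Continuous (D f i) := fun i => continuous_D f hf1 i
  have hIc : Continuous fun x => Iso (f x) := continuous_Iso.comp hfc
  have hwc : Continuous (wf f) := by
    unfold wf
    fun_prop
  have hgc : Continuous fun x => √(∑ i, D f i x ^ 2) := by fun_prop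
  have hI : ∀ (w : (Fin d → ℝ) → ℝ), Continuous w → IntegrableOn w (Icc (0 : Fin d → ℝ) 1) :=
    fun w hw => hw.continuousOn.integrableOn_compact isCompact_Icc
  -- the functional of `f` over the cube
  have hle : ∫ x in Icc (0 : Fin d → ℝ) 1, wf f x ≤
      Real.pi * (∫ x in Icc (0 : Fin d → ℝ) 1, Iso (f x)) +
        ∫ x in Icc (0 : Fin d → ℝ) 1, √(∑ i, D f i x ^ 2) := by
    rw [← integral_const_mul, ← integral_add ((hI _ hIc).const_mul _) (hI _ hgc)]
    apply integral_mono (hI _ hwc) (((hI _ hIc).const_mul _).add (hI _ hgc))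
    intro x
    show √(Real.pi ^ 2 * Iso (f x) ^ 2 + ∑ i, D f i x ^ 2) ≤
      Real.pi * Iso (f x) + √(∑ i, D f i x ^ 2)
    have hJ0 := Iso_nonneg (f x)
    have hp := Real.pi_pos
    have hs0 : 0 ≤ ∑ i, D f i x ^ 2 := Finset.sum_nonneg fun i _ => sq_nonneg _
    rw [Real.sqrt_le_left (by positivity)]
    have := Real.sq_sqrt hs0
    have h5 : 0 ≤ Real.pi * Iso (f x) * √(∑ i, D f i x ^ 2) := by positivity
    nlinarith
  have hI0 : 0 ≤ ∫ x in Icc (0 : Fin d → ℝ) 1, Iso (f x) := integral_nonneg fun x => Iso_nonneg _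
  have hpi := Real.pi_lt_four
  have hcube : ∫ x in Icc (0 : Fin d → ℝ) 1, wf f x < C + ε := by
    have h1 : Real.pi * (∫ x in Icc (0 : Fin d → ℝ) 1, Iso (f x)) ≤ 4 * (ε / 8) := by
      nlinarith [Real.pi_pos]
    linarith
  -- choose `s`
  have t1 := (av_Psi_tendsto (d := d) hwc).eventually (gt_mem_nhds hcube)
  have t2 : ∀ᶠ s in 𝓝 (0:ℝ), |av (fun x => f (Psi d s x)) - v| < ε := by
    have h1 := (av_Psi_tendsto (d := d) hfc).sub_const v
    have h2 := h1.abs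
    exact h2.eventually (gt_mem_nhds (lt_of_le_of_lt hav (by linarith)))
  have t3 : ∀ᶠ s in 𝓝 (0:ℝ), av (fun x => Iso (f (Psi d s x))) < ε := by
    have h1 := av_Psi_tendsto (d := d) hIc
    exact h1.eventually (gt_mem_nhds (lt_of_le_of_lt hiso (by linarith)))
  have t4 : ∀ᶠ s in 𝓝[>] (0:ℝ), 0 < s ∧ s < 1 := by
    filter_upwards [Ioo_mem_nhdsGT (show (0:ℝ) < 1 by norm_num)] with s hs
    exact ⟨hs.1, hs.2⟩
  have hle' : 𝓝[>] (0:ℝ) ≤ 𝓝 0 := nhdsWithin_le_nhds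
  obtain ⟨s, ⟨h0, h1⟩, hs1, hs2, hs3⟩ :=
    (t4.and ((t1.filter_mono hle').and ((t2.filter_mono hle').and (t3.filter_mono hle')))).exists
  have hs1' : av (fun x => wf f (Psi d s x)) < C + ε := hs1
  refine ⟨fun x => f (Psi d s x), hf.comp (contDiff_Psi h0 h1), ?_, ?_, fun x => h01 _, ?_,
    hs2.le, hs3.le⟩
  · intro i x
    show f (Psi d s (rf i x)) = f (Psi d s x)
    rw [Psi_rf]
  · intro i x
    show f (Psi d s (x + Pi.single i 2)) = f (Psi d s x)
    rw [Psi_periodic]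
  · refine le_trans ?_ hs1'.le
    unfold Fn av
    obtain ⟨B, hB⟩ := (isCompact_Icc (a := (0 : Fin d → ℝ)) (b := 1)).exists_bound_of_continuousOn
      hwc.continuousOn
    have hPc : Continuous (Psi d s) := (contDiff_Psi h0 h1).continuous
    have hi : Integrable (fun x => wf f (Psi d s x)) (mu d) :=
      (integrable_const B).mono' (hwc.comp hPc).aestronglyMeasurable
        (Eventually.of_forall fun x => hB _ (Psi_mem s x))
    apply integral_mono_of_nonneg (Eventually.of_forall fun x => Real.sqrt_nonneg _) hi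
    exact Eventually.of_forall fun x => wf_comp_le h0 h1 hf1 x

end Pool.Agent.Helper55K1.SF
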