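import Pool.Agent.Helper55K1.SF.Fold

/-!
# Averages of folded functions
-/

set_option autoImplicit false

namespace Pool.Agent.Helper55K1.SF

open MeasureTheory Set Filter Topology
open Pool.Agent.H62
open Pool.Agent.H48R3.CP (D U)
open scoped ContDiff

theorem nu_map_abs : nu.map (fun t : ℝ => |t|) = volume.restrict (Icc (0 : ℝ) 1) := by
  ext s hs
  rw [Measure.map_apply measurable_abs hs]
  have hs' : MeasurableSet ((fun t : ℝ => |t|) ⁻¹' s) := measurable_abs hs
  unfold nu
  rw [Measure.smul_apply, Measure.restrict_apply hs', smul_eq_mul]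
  have e1 : (fun t : ℝ => |t|) ⁻¹' s ∩ Ioc (-1) 1 =
      (Neg.neg ⁻¹' (s ∩ Ico 0 1)) ∪ (s ∩ Ioc 0 1) := by
    ext t
    simp only [mem_inter_iff, mem_preimage, mem_Ioc, mem_union, mem_Ico]
    constructor
    · rintro ⟨h1, h2, h3⟩
      rcases le_or_gt t 0 with h4 | h4
      · left
        rw [abs_of_nonpos h4] at h1
        exact ⟨h1, by linarith, by linarith⟩
      · right
        rw [abs_of_pos h4] at h1
        exact ⟨h1, h4, h3⟩
    · rintro (⟨h1, h2, h3⟩ | ⟨h1, h2, h3⟩)
      · refine ⟨?_, by linarith, by linarith⟩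
        rw [abs_of_nonpos (by linarith)]
        exact h1
      · refine ⟨?_, by linarith, by linarith⟩
        rw [abs_of_pos h2]
        exact h1
  have e2 : Disjoint ((Neg.neg ⁻¹' (s ∩ Ico 0 1)) : Set ℝ) (s ∩ Ioc 0 1) := by
    rw [Set.disjoint_left]
    rintro t ⟨_, h2, _⟩ ⟨_, h3, _⟩
    linarith
  rw [e1, measure_union e2 (hs.inter measurableSet_Ioc)]
  have e3 : volume ((Neg.neg ⁻¹' (s ∩ Ico 0 1)) : Set ℝ) = volume (s ∩ Icc 0 1) := by
    have : volume ((Neg.neg ⁻¹' (s ∩ Ico 0 1)) : Set ℝ) = volume (s ∩ Ico 0 1) := by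
      rw [show (Neg.neg ⁻¹' (s ∩ Ico 0 1) : Set ℝ) = -(s ∩ Ico 0 1) from rfl,
        Measure.measure_neg]
    rw [this, ← Measure.restrict_apply hs, ← Measure.restrict_apply hs,
      Measure.restrict_congr_set Ico_ae_eq_Icc]
  have e4 : volume (s ∩ Ioc (0:ℝ) 1) = volume (s ∩ Icc 0 1) := by
    rw [← Measure.restrict_apply hs, ← Measure.restrict_apply hs,
      Measure.restrict_congr_set Ioc_ae_eq_Icc]
  rw [e3, e4, Measure.restrict_apply hs, ← two_mul, ← mul_assoc,
    ENNReal.inv_mul_cancel (by norm_num) (by norm_num), one_mul]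

instance : IsProbabilityMeasure nu := by
  constructor
  unfold nu
  rw [Measure.smul_apply, Measure.restrict_apply_univ, Real.volume_Ioc, smul_eq_mul]
  norm_num
  exact ENNReal.inv_mul_cancel (by norm_num) (by norm_num)

instance (d : ℕ) : IsProbabilityMeasure (mu d) := by
  unfold mu
  infer_instance

/-- the folding map -/
def ab (d : ℕ) (x : Fin d → ℝ) : Fin d → ℝ := fun i => |x i|

theorem mu_map_abs (d : ℕ) : (mu d).map (ab d) = volume.restrict (Icc (0 : Fin d → ℝ) 1) := by
  unfold mu ab
  rw [Measure.pi_map_pi (fun _ => measurable_abs.aemeasurable)]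
  simp only [nu_map_abs]
  rw [← Measure.restrict_pi_pi, volume_pi, ← pi_univ_Icc]
  rfl

theorem av_ab {d : ℕ} {h : (Fin d → ℝ) → ℝ} (hh : Continuous h) :
    av (fun x => h (ab d x)) = ∫ x in Icc (0 : Fin d → ℝ) 1, h x := by
  unfold av
  rw [← mu_map_abs, integral_map]
  · have h1 : Measurable (ab d) := measurable_pi_lambda _ fun i =>
      measurable_abs.comp (measurable_pi_apply i)
    exact h1.aemeasurable
  · exact hh.aestronglyMeasurable

/-- averages of folded functions converge -/
theorem av_Psi_tendsto {d : ℕ} {h : (Fin d → ℝ) → ℝ} (hh : Continuous h) :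
    Tendsto (fun s => av (fun x => h (Psi d s x))) (𝓝 0)
      (𝓝 (∫ x in Icc (0 : Fin d → ℝ) 1, h x)) := by
  rw [← av_ab hh]
  obtain ⟨B, hB⟩ := (isCompact_Icc (a := (0 : Fin d → ℝ)) (b := 1)).exists_bound_of_continuousOn
    hh.continuousOn
  unfold av
  have hcont : ∀ s : ℝ, Continuous (Psi d s) := by
    intro s
    refine continuous_pi fun i => ?_
    unfold Psi ps
    exact continuous_const.mul (Real.continuous_arccos.comp (by fun_prop))
  apply tendsto_integral_filter_of_dominated_convergence (fun _ => B)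
  · exact Eventually.of_forall fun s => (hh.comp (hcont s)).aestronglyMeasurable
  · exact Eventually.of_forall fun s => Eventually.of_forall fun x => hB _ (Psi_mem s x)
  · exact integrable_const _
  · have hae : ∀ᵐ x ∂(mu d), ∀ i, x i ∈ Ioc (-1 : ℝ) 1 := by
      rw [ae_all_iff]
      intro i
      have h1 : ∀ᵐ t ∂nu, t ∈ Ioc (-1 : ℝ) 1 := by
        unfold nu
        exact Measure.ae_smul_measure (ae_restrict_mem measurableSet_Ioc) _
      exact (Measure.quasiMeasurePreserving_eval (μ := fun _ : Fin d => nu) i).ae h1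
    filter_upwards [hae] with x hx
    have h2 : Psi d 0 x = ab d x := by
      funext i
      exact ps_zero (hx i).1.le (hx i).2
    rw [← h2]
    have h3 : Continuous fun s => h (Psi d s x) :=
      hh.comp (continuous_pi fun i => continuous_ps_s (x i))
    exact h3.tendsto 0

end Pool.Agent.Helper55K1.SF
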